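import Mathlib

/-! Borel-Cantelli for affine images: if the sets `B n` of `ℝ^ι` have volume at most `c n`, then for
almost every `x` the points `h n + U n • x` are not in `B n` for all large `n`, provided that
`∑ c n / (U n)^d` converges. -/

open MeasureTheory Filter Topology

namespace Pool.Agent.Q39.AE

variable {ι : Type} [Fintype ι]

theorem vol_pre (B : Set (ι → ℝ)) (h : ι → ℝ) {U : ℝ} (hU : 0 < U) :
    volume {x : ι → ℝ | (fun i => h i + U * x i) ∈ B} =
      ENNReal.ofReal ((U ^ Fintype.card ι)⁻¹) * volume B := by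
  have e : {x : ι → ℝ | (fun i => h i + U * x i) ∈ B} =
      (fun x : ι → ℝ => U • x) ⁻¹' ((fun y : ι → ℝ => h + y) ⁻¹' B) := by
    ext x
    simp only [Set.mem_setOf_eq, Set.mem_preimage]
    rfl
  rw [e, Measure.addHaar_preimage_smul _ hU.ne', measure_preimage_add,
    Module.finrank_fintype_fun_eq_card]
  congr 2
  rw [abs_of_pos (by positivity)]

theorem ae_affine (B : ℕ → Set (ι → ℝ)) (h : ℕ → ι → ℝ) (U c : ℕ → ℝ) (hU : ∀ n, 0 < U n)
    (hc0 : ∀ n, 0 ≤ c n) (hB : ∀ᶠ n in atTop, volume (B n) ≤ ENNReal.ofReal (c n))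
    (hs : Summable fun n => c n * ((U n) ^ Fintype.card ι)⁻¹) :
    ∀ᵐ x : ι → ℝ, ∀ᶠ n in atTop, (fun i => h n i + U n * x i) ∉ B n := by
  obtain ⟨n0, hn0⟩ := eventually_atTop.1 hB
  set S : ℕ → Set (ι → ℝ) := fun n =>
    {x : ι → ℝ | (fun i => h (n + n0) i + U (n + n0) * x i) ∈ B (n + n0)} with hS
  have hb : ∀ n, volume (S n) ≤
      ENNReal.ofReal (c (n + n0) * ((U (n + n0)) ^ Fintype.card ι)⁻¹) := by
    intro n
    rw [hS]
    simp only
    rw [vol_pre _ _ (hU _), mul_comm (c (n + n0)), ENNReal.ofReal_mul (by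
      have := hU (n + n0); positivity)]
    exact mul_le_mul_right (hn0 (n + n0) (by omega)) _
  have hsum : ∑' n, volume (S n) ≠ ⊤ := by
    have h1 : Summable fun n => c (n + n0) * ((U (n + n0)) ^ Fintype.card ι)⁻¹ :=
      (summable_nat_add_iff n0).2 hs
    have h2 : ∑' n, ENNReal.ofReal (c (n + n0) * ((U (n + n0)) ^ Fintype.card ι)⁻¹) ≠ ⊤ := by
      rw [← ENNReal.ofReal_tsum_of_nonneg (fun n => ?_) h1]
      · exact ENNReal.ofReal_ne_top
      · have h3 := hU (n + n0)
        have h4 := hc0 (n + n0)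
        positivity
    exact ne_top_of_le_ne_top h2 (ENNReal.tsum_le_tsum hb)
  filter_upwards [ae_eventually_notMem hsum] with x hx
  obtain ⟨n1, hn1⟩ := eventually_atTop.1 hx
  refine eventually_atTop.2 ⟨n1 + n0, fun n hn => ?_⟩
  have h3 := hn1 (n - n0) (by omega)
  have e : n - n0 + n0 = n := by omega
  simp only [hS, Set.mem_setOf_eq, e] at h3
  exact h3

end Pool.Agent.Q39.AE
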