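import Pool.Agent.Q39.AE.BC

/-! A general transfer: if for all large `T` the set `B T` of the exceptional vectors of the cube
`[0, T] ^ ι` has volume at most `T ^ (d - δ)`, `d = |ι|`, then arbitrary vectors `h n ∈ [0, T n] ^ ι`
leave the exceptional sets after a generic perturbation `U n x`, `U n ≥ T n ^ (1 - η)`. -/

open MeasureTheory Filter Topology

namespace Pool.Agent.Q39.AE

variable {ι : Type} [Fintype ι]

theorem tendsto_of_summable {T : ℕ → ℝ} (hT : ∀ n, 1 ≤ T n) {η : ℝ} (hη : 0 < η)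
    (hsum : Summable fun n => T n ^ (-η)) : Tendsto T atTop atTop := by
  have hT0 : ∀ n, 0 < T n := fun n => lt_of_lt_of_le one_pos (hT n)
  have h1 := hsum.tendsto_atTop_zero
  rw [tendsto_atTop]
  intro b
  have hb : (0 : ℝ) < (max b 1) ^ (-η) := Real.rpow_pos_of_pos (by positivity) _
  filter_upwards [h1.eventually_lt_const hb] with n hn
  by_contra hcon
  push Not at hcon
  have h2 : T n ≤ max b 1 := hcon.le.trans (le_max_left _ _)
  have h3 : (max b 1) ^ (-η) ≤ T n ^ (-η) :=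
    Real.rpow_le_rpow_of_nonpos (hT0 n) h2 (by linarith)
  linarith

/-- One cube `[0, R] ^ ι`: the points `h n + U n x` avoid the sets `B (M T n)`, `M = R + 1`. -/
theorem pert (B : ℕ → ℝ → Set (ι → ℝ)) (δ : ℝ) (T₀ : ℝ)
    (hB : ∀ T : ℝ, T₀ ≤ T → ∀ n : ℕ, volume (B n T) ≤ ENNReal.ofReal (T ^ (Fintype.card ι - δ : ℝ)))
    (η : ℝ) (hη0 : 0 < η) (hη : η * (Fintype.card ι + 1) ≤ δ) (T U : ℕ → ℝ) (h : ℕ → ι → ℝ)
    (hT : ∀ n, 1 ≤ T n) (hsum : Summable fun n => T n ^ (-η))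
    (hU : ∀ n, T n ^ (1 - η) ≤ U n) (M : ℝ) (hM1 : 1 ≤ M) :
    ∀ᵐ x : ι → ℝ, ∀ᶠ n in atTop, (fun i => h n i + U n * x i) ∉ B n (M * T n) := by
  have hT0 : ∀ n, 0 < T n := fun n => lt_of_lt_of_le one_pos (hT n)
  have hU0 : ∀ n, 0 < U n := fun n => lt_of_lt_of_le (Real.rpow_pos_of_pos (hT0 n) _) (hU n)
  have hM0 : 0 < M := by linarith
  have hTlim := tendsto_of_summable hT hη0 hsum
  have hMT : Tendsto (fun n => M * T n) atTop atTop := hTlim.const_mul_atTop hM0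
  set d : ℕ := Fintype.card ι with hd
  have hBv : ∀ᶠ n in atTop, volume (B n (M * T n)) ≤ ENNReal.ofReal ((M * T n) ^ (d - δ : ℝ)) := by
    filter_upwards [hMT.eventually_ge_atTop T₀] with n hn
    exact hB (M * T n) hn n
  refine ae_affine (fun n => B n (M * T n)) h U (fun n => (M * T n) ^ (d - δ : ℝ)) hU0
    (fun n => Real.rpow_nonneg (mul_nonneg hM0.le (hT0 n).le) _) hBv ?_
  rw [← hd]
  refine Summable.of_nonneg_of_le (fun n => ?_) (fun n => ?_) (hsum.mul_left (M ^ (d - δ : ℝ)))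
  · have h1 := hT0 n
    have h2 := hU0 n
    positivity
  · rw [Real.mul_rpow hM0.le (hT0 n).le, mul_assoc]
    refine mul_le_mul_of_nonneg_left ?_ (Real.rpow_nonneg hM0.le _)
    have h3 : (T n ^ (1 - η)) ^ d ≤ U n ^ d :=
      pow_le_pow_left₀ (Real.rpow_nonneg (hT0 n).le _) (hU n) _
    have h4 : (U n ^ d)⁻¹ ≤ ((T n ^ (1 - η)) ^ d)⁻¹ :=
      inv_anti₀ (by have := Real.rpow_pos_of_pos (hT0 n) (1 - η); positivity) h3
    calc T n ^ (d - δ : ℝ) * (U n ^ d)⁻¹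
        ≤ T n ^ (d - δ : ℝ) * ((T n ^ (1 - η)) ^ d)⁻¹ :=
          mul_le_mul_of_nonneg_left h4 (Real.rpow_nonneg (hT0 n).le _)
      _ = T n ^ ((d - δ : ℝ) - (1 - η) * d) := by
          rw [← Real.rpow_natCast (T n ^ (1 - η)), ← Real.rpow_mul (hT0 n).le,
            ← Real.rpow_neg (hT0 n).le, ← Real.rpow_add (hT0 n)]
          ring_nf
      _ ≤ T n ^ (-η) := by
          apply Real.rpow_le_rpow_of_exponent_le (hT n)
          nlinarith

end Pool.Agent.Q39.AE
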